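import Mathlib

namespace Pool.Agent.Results.MP_ce2a64_co.FactorNotRadio

open SimpleGraph

/-- `G` is radio graceful: there is a labelling of the vertices by natural numbers whose image is
exactly `{0, 1, ..., |V| - 1}` and with `|f u - f v| ≥ diam G + 1 - d(u, v)` for all `u ≠ v`. -/
def RadioGraceful {V : Type} [Fintype V] (G : SimpleGraph V) : Prop :=
  ∃ f : V → ℕ, Set.range f = {k : ℕ | k < Fintype.card V} ∧
    ∀ u v : V, u ≠ v → (G.diam : ℤ) + 1 - (G.dist u v : ℤ) ≤ |(f u : ℤ) - (f v : ℤ)|

/-- Adjacency in the complement of the first factor: three triangles `123`, `456`, `789`, and the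
vertex `0` joined to `1, 2, 4, 5, 7, 8`. -/
def B (u v : Fin 10) : Bool :=
  u != v && ((u.val != 0 && v.val != 0 && (u.val - 1) / 3 == (v.val - 1) / 3) ||
    (u.val == 0 && v.val % 3 != 0) || (v.val == 0 && u.val % 3 != 0))

/-- The first factor. -/
def G : SimpleGraph (Fin 10) where
  Adj u v := u ≠ v ∧ B u v = false
  symm := ⟨fun u v h => ⟨h.1.symm, by
    have : ∀ u v, B u v = B v u := by decide
    rw [this]; exact h.2⟩⟩
  loopless := ⟨fun u h => h.1 rfl⟩

instance : DecidableRel G.Adj := fun u v => inferInstanceAs (Decidable (u ≠ v ∧ B u v = false))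

/-- The distance function of `G`. -/
def dG (u v : Fin 10) : ℕ := if u = v then 0 else if B u v then 2 else 1

theorem edistG (u v : Fin 10) : G.edist u v = (dG u v : ℕ∞) := by
  unfold dG
  by_cases h : u = v
  · rw [if_pos h, h]; simp
  rw [if_neg h]
  by_cases h2 : B u v = true
  · rw [if_pos h2]
    have h3 : ∀ u v : Fin 10, B u v = true → ∃ w, G.Adj u w ∧ G.Adj v w := by decide
    obtain ⟨w, hw⟩ := h3 u v h2
    have : G.edist u v = 2 := by
      rw [edist_eq_two_iff]
      refine ⟨h, ?_, ⟨w, ?_⟩⟩
      · rintro ⟨-, h4⟩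
        rw [h2] at h4
        exact Bool.noConfusion h4
      · rw [mem_commonNeighbors]
        exact hw
    rw [this]
    rfl
  · rw [if_neg h2]
    have : G.edist u v = 1 := by
      rw [edist_eq_one_iff_adj]
      exact ⟨h, by simpa using h2⟩
    rw [this]
    rfl

theorem ediamG : G.ediam = 2 := by
  apply le_antisymm
  · rw [ediam_le_iff]
    intro u v
    rw [edistG]
    have : ∀ u v, dG u v ≤ 2 := by decide
    exact_mod_cast this u v
  · have := edist_le_ediam (G := G) (u := 0) (v := 1)
    rw [edistG] at this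
    exact this

theorem connG : G.Connected := by
  refine ⟨fun u v => ?_⟩
  rw [← edist_ne_top_iff_reachable, edistG]
  exact ENat.natCast_ne_top _

/-- The labelling of the product `G □ K₃`. -/
def lab : Fin 10 → Fin 3 → ℕ :=
  ![![13, 20, 3], ![0, 16, 19], ![2, 14, 17], ![18, 1, 15],
    ![9, 6, 12], ![7, 4, 10], ![5, 11, 8], ![21, 27, 24], ![26, 23, 29], ![28, 25, 22]]

/-- The distance function of `K₃`. -/
def dK (a b : Fin 3) : ℕ := if a = b then 0 else 1

theorem edistK (a b : Fin 3) : (⊤ : SimpleGraph (Fin 3)).edist a b = (dK a b : ℕ∞) := by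
  unfold dK
  rw [edist_top]
  split_ifs <;> simp

theorem edistP (x y : Fin 10 × Fin 3) :
    (G □ (⊤ : SimpleGraph (Fin 3))).edist x y = ((dG x.1 y.1 + dK x.2 y.2 : ℕ) : ℕ∞) := by
  rw [edist_boxProd, edistG, edistK]
  push_cast
  rfl

theorem ediamP : (G □ (⊤ : SimpleGraph (Fin 3))).ediam = 3 := by
  apply le_antisymm
  · rw [ediam_le_iff]
    intro x y
    rw [edistP]
    have h1 : ∀ u v, dG u v ≤ 2 := by decide
    have h2 : ∀ u v, dK u v ≤ 1 := by decide
    have := add_le_add (h1 x.1 y.1) (h2 x.2 y.2)
    exact_mod_cast this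
  · have := edist_le_ediam (G := G □ (⊤ : SimpleGraph (Fin 3))) (u := (0, 0)) (v := (1, 1))
    rw [edistP] at this
    exact this

theorem lab_ok : ∀ (u v : Fin 10) (a b : Fin 3), (u = v ∧ a = b) ∨
    (4 ≤ dG u v + dK a b + (lab u a - lab v b) + (lab v b - lab u a)) := by
  decide +kernel

theorem lab_range : ∀ k : Fin 30, ∃ u : Fin 10, ∃ a : Fin 3, lab u a = k := by
  decide +kernel

theorem lab_lt : ∀ (u : Fin 10) (a : Fin 3), lab u a < 30 := by
  decide +kernel

theorem product_graceful : RadioGraceful (G □ (⊤ : SimpleGraph (Fin 3))) := by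
  refine ⟨fun x => lab x.1 x.2, ?_, ?_⟩
  · ext k
    simp only [Set.mem_range, Fintype.card_prod, Fintype.card_fin, Set.mem_ofPred_eq, Prod.exists]
    constructor
    · rintro ⟨u, a, h⟩
      rw [← h]
      exact lab_lt u a
    · intro hk
      exact lab_range ⟨k, hk⟩
  · rintro ⟨u, a⟩ ⟨v, b⟩ hne
    have h1 : (G □ (⊤ : SimpleGraph (Fin 3))).diam = 3 := by
      rw [diam, ediamP]; rfl
    have h2 : (G □ (⊤ : SimpleGraph (Fin 3))).dist (u, a) (v, b) = dG u v + dK a b := by
      unfold SimpleGraph.dist
      rw [edistP]; rfl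
    rw [h1, h2]
    rcases lab_ok u v a b with h | h
    · exact absurd (Prod.ext h.1 h.2) hne
    · simp only
      have h3 : ((4 : ℕ) : ℤ) ≤ ((dG u v + dK a b + (lab u a - lab v b) + (lab v b - lab u a) : ℕ) : ℤ)
        := by exact_mod_cast h
      rcases le_total (lab u a) (lab v b) with hle | hle
      · rw [Nat.sub_eq_zero_of_le hle] at h3
        rw [abs_sub_comm, abs_of_nonneg (by
          have : (lab u a : ℤ) ≤ lab v b := by exact_mod_cast hle
          linarith)]
        push_cast [hle] at h3 ⊢
        linarith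
      · rw [Nat.sub_eq_zero_of_le hle] at h3
        rw [abs_of_nonneg (by
          have : (lab v b : ℤ) ≤ lab u a := by exact_mod_cast hle
          linarith)]
        push_cast [hle] at h3 ⊢
        linarith

/-- The block (triangle) of a nonzero vertex. -/
def block (v : Fin 10) : ℕ := (v.val - 1) / 3

theorem not_graceful : ¬ RadioGraceful G := by
  rintro ⟨f, hr, hf⟩
  rw [Fintype.card_fin] at hr
  have hdiam : G.diam = 2 := by rw [diam, ediamG]; rfl
  have hdist : ∀ u v, G.dist u v = dG u v := fun u v => by
    unfold SimpleGraph.dist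
    rw [edistG]; rfl
  have hex : ∀ k : ℕ, k < 10 → ∃ v, f v = k := by
    intro k hk
    have : k ∈ {k : ℕ | k < 10} := hk
    rw [← hr] at this
    exact this
  have hlt : ∀ v, f v < 10 := by
    intro v
    have : f v ∈ {k : ℕ | k < 10} := by
      rw [← hr]; exact ⟨v, rfl⟩
    exact this
  -- consecutive vertices lie in the same block unless one of them is `0`
  have hstep : ∀ u v : Fin 10, u ≠ 0 → v ≠ 0 → f v = f u + 1 → block u = block v := by
    intro u v hu hv huv
    have hne : u ≠ v := by
      rintro rfl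
      omega
    have h1 := hf u v hne
    rw [hdiam, hdist, huv] at h1
    have h2 : |(f u : ℤ) - ((f u + 1 : ℕ) : ℤ)| = 1 := by
      push_cast
      rw [show (f u : ℤ) - (f u + 1) = -1 by ring]
      norm_num
    rw [h2] at h1
    have h3 : 2 ≤ dG u v := by
      have : (2 : ℤ) ≤ dG u v := by push_cast at h1 ⊢; linarith
      exact_mod_cast this
    have h4 : ∀ u v : Fin 10, u ≠ 0 → v ≠ 0 → 2 ≤ dG u v → block u = block v := by decide
    exact h4 u v hu hv h3
  -- vertices on the same side of `0` are in the same block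
  have hside : ∀ n : ℕ, ∀ u v : Fin 10, f v = f u + n →
      (∀ w, f u ≤ f w → f w ≤ f v → w ≠ 0) → block u = block v := by
    intro n
    induction n with
    | zero =>
      intro u v huv hw
      -- `f` is injective since it is onto a set of the same size
      have hinj : Function.Injective f := by
        have h5 : (Finset.univ.image f).card = 10 := by
          have : Finset.univ.image f = Finset.range 10 := by
            ext k
            simp only [Finset.mem_image, Finset.mem_univ, true_and, Finset.mem_range]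
            constructor
            · rintro ⟨v, rfl⟩
              exact hlt v
            · exact hex k
          rw [this, Finset.card_range]
        have h6 : (Finset.univ.image f).card = (Finset.univ : Finset (Fin 10)).card := by
          rw [h5]; rfl
        rw [Finset.card_image_iff] at h6
        intro a b hab
        exact h6 (Finset.mem_coe.2 (Finset.mem_univ a)) (Finset.mem_coe.2 (Finset.mem_univ b)) hab
      rw [hinj (show f v = f u by omega)]
    | succ n ih =>
      intro u v huv hw
      obtain ⟨w, hw1⟩ := hex (f u + n) (by have := hlt v; omega)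
      have h7 := ih u w hw1 (fun x hx1 hx2 => hw x hx1 (by omega))
      have h8 := hstep w v (hw w (by omega) (by omega)) (hw v (by omega) le_rfl) (by omega)
      exact h7.trans h8
  have hcmp : ∀ u v : Fin 10, block u ≠ block v → ((f u < f 0 ∧ f v < f 0) ∨
      (f 0 < f u ∧ f 0 < f v)) → False := by
    intro u v hb hs
    rcases le_total (f u) (f v) with h | h
    · refine hb (hside (f v - f u) u v (by omega) fun w h1 h2 hw0 => ?_)
      subst hw0
      omega
    · refine hb (hside (f u - f v) v u (by omega) fun w h1 h2 hw0 => ?_).symm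
      subst hw0
      omega
  have hne0 : ∀ v : Fin 10, v ≠ 0 → f v ≠ f 0 := by
    intro v hv h
    have h1 := hf v 0 hv
    rw [hdiam, hdist, h, sub_self, abs_zero] at h1
    have h2 : ∀ v, dG v 0 ≤ 2 := by decide
    have h3 : ((dG v 0 : ℕ) : ℤ) ≤ 2 := by exact_mod_cast h2 v
    push_cast at h1
    linarith
  have e1 := hne0 1 (by decide)
  have e2 := hne0 4 (by decide)
  have e3 := hne0 7 (by decide)
  have c12 := hcmp 1 4 (by decide)
  have c13 := hcmp 1 7 (by decide)
  have c23 := hcmp 4 7 (by decide)
  rcases lt_or_gt_of_ne e1 with g1 | g1 <;> rcases lt_or_gt_of_ne e2 with g2 | g2 <;>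
    rcases lt_or_gt_of_ne e3 with g3 | g3
  · exact c12 (Or.inl ⟨g1, g2⟩)
  · exact c12 (Or.inl ⟨g1, g2⟩)
  · exact c13 (Or.inl ⟨g1, g3⟩)
  · exact c23 (Or.inr ⟨g2, g3⟩)
  · exact c23 (Or.inl ⟨g2, g3⟩)
  · exact c13 (Or.inr ⟨g1, g3⟩)
  · exact c12 (Or.inr ⟨g1, g2⟩)
  · exact c12 (Or.inr ⟨g1, g2⟩)

/-- There are finite connected graphs `G` (on ten vertices) and `H = K₃` such that the Cartesian
product of `G` and `H` is radio graceful but `G` is not. -/
theorem result : ∃ (V W : Type) (_ : Fintype V) (_ : Fintype W) (G : SimpleGraph V)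
    (H : SimpleGraph W), G.Connected ∧ H.Connected ∧ RadioGraceful (G □ H) ∧
      ¬ RadioGraceful G :=
  ⟨Fin 10, Fin 3, inferInstance, inferInstance, G, ⊤, connG, connected_top,
    product_graceful, not_graceful⟩

end Pool.Agent.Results.MP_ce2a64_co.FactorNotRadio
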